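import Pool.Agent.U642.QS.Diag

set_option autoImplicit false

/-!
# Record prime gaps at the solutions of diagonal systems in few variables modulo primes

Let `f(x) = log x (log₂ x)² log₄ x / (log₃ x)²` be the order of the largest prime gaps that are
known to occur (starting files).  Let `p` be a large prime and let

  `∑_j g_ij(x_j) = a_i`, `1 ≤ i ≤ m`,

be a system of `m` equations in `r` variables over the field with `p` elements, the `g_ij`
polynomials in one variable of degree at most `p ^ (δ / (4 (r + 1)))` (so the degrees may grow with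
`p`), `a` arbitrary.  For `t ≠ 0` let `J(t)` be the set of the variables `j` for which the
combination `∑_i t_i g_ij` is nonlinear.  The theorem: in every box `∏ (M_j, M_j + L_j]` with
`p ^ δ ≤ L_j ≤ p` and

  `∏_{j ∈ J(t)} L_j ≥ p ^ (|J(t)| / 2 + m + δ)` for all `t ≠ 0`,

there are at least `p ^ (-δ)` times the expected number `∏ L_j / p ^ m` of integer solutions `x`
such that all the `x_j`, and all the products `x_1 ^ (e_1) ⋯ x_r ^ (e_r)` with coprime exponents
`e_j ≤ E`, are in the middle of prime gaps of the record size for the modulus `p`.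

Examples: one equation `c_1 x_1 ^ k_1 + c_2 x_2 ^ k_2 + c_3 x_3 ^ k_3 = a`, all `c_j ≠ 0` and
`k_j ≥ 2`, in boxes of volume `p ^ (5 / 2 + δ)`; if every nontrivial combination of the equations
has at least `ρ` nonlinear variables, then all the boxes with sides `≥ p ^ (1 / 2 + (m + δ) / ρ)`.
(For many variables and degrees bounded in advance, the intervals of `MP_f9960f_nt.WaringModP` are
shorter; here the number of variables and the degrees are arbitrary.)

Method.  The sums over the variables of `J(t)` are completed, Weil's bound is applied to them, and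
the sums over the other variables are estimated trivially.  The covering sieve for families of
polynomials at well distributed families of integer vectors (helper837, helper542; after helper256
and helper378) then gives the record gaps.
-/

namespace Pool.Agent.Results.MP_7ba156_nt.DiagonalSystemsModP

open Finset Filter Polynomial

/-- The record scale `f(x) = log x (log₂ x)² log₄ x / (log₃ x)²` (iterated natural logarithms). -/
noncomputable def f (x : ℝ) : ℝ :=
  Real.log x * (Real.log (Real.log x)) ^ 2 * Real.log (Real.log (Real.log (Real.log x))) /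
    (Real.log (Real.log (Real.log x))) ^ 2

open scoped Classical in
/-- The variables `j` for which the combination `∑ i, t i * g i j` is not linear. -/
noncomputable def J {p m r : ℕ} (g : Fin m → Fin r → (ZMod p)[X]) (t : Fin m → ZMod p) :
    Finset (Fin r) := univ.filter (fun j => 2 ≤ (∑ i, C (t i) * g i j).natDegree)

/-- The integer solutions of `∑ j, g i j (x j) = a i` (in `ZMod p`) in the box
`∏ (M j, M j + L j]` such that for all coprime exponents `e j ≤ E` all the integers at distance at
most `κ f(p)` from `∏ (x j) ^ (e j)` have a prime factor `l ≤ p ^ δ`. -/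
def Sols {p m r : ℕ} (E : ℕ) (κ δ : ℝ) (g : Fin m → Fin r → (ZMod p)[X]) (a : Fin m → ZMod p)
    (M : Fin r → ℤ) (L : Fin r → ℕ) : Set (Fin r → ℤ) :=
  {x | (∀ j, M j < x j ∧ x j ≤ M j + L j) ∧
    (∀ i, ∑ j, (g i j).eval ((x j : ℤ) : ZMod p) = a i) ∧
    ∀ e : Fin r → ℕ, (∀ j, e j ≤ E) → Finset.univ.gcd e = 1 →
      ∀ n : ℤ, |(n : ℝ) - ∏ j, (x j : ℝ) ^ e j| ≤ κ * f p →
        ∃ l : ℕ, l.Prime ∧ (l : ℝ) ≤ (p : ℝ) ^ δ ∧ (l : ℤ) ∣ n}

/-- **Record prime gaps at the solutions of diagonal systems in few variables modulo primes.** -/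
theorem result (r m E : ℕ) (δ : ℝ) (hδ : 0 < δ) (hδ1 : δ ≤ 1) :
    ∃ κ : ℝ, 0 < κ ∧ ∃ p₀ : ℕ, ∀ p : ℕ, p.Prime → p₀ ≤ p →
      ∀ (g : Fin m → Fin r → (ZMod p)[X]) (a : Fin m → ZMod p) (M : Fin r → ℤ) (L : Fin r → ℕ),
      (∀ i j, ((g i j).natDegree : ℝ) ≤ (p : ℝ) ^ (δ / (4 * (r + 1)))) →
      (∀ j, (p : ℝ) ^ δ ≤ L j ∧ L j ≤ p) →
      (∀ t : Fin m → ZMod p, t ≠ 0 →
        (p : ℝ) ^ (((J g t).card : ℝ) / 2 + m + δ) ≤ ∏ j ∈ J g t, (L j : ℝ)) →
      (∏ j, (L j : ℝ)) / (p : ℝ) ^ ((m : ℝ) + δ) ≤ ((Sols E κ δ g a M L).ncard : ℝ) := by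
  classical
  obtain ⟨h1, h2⟩ := Pool.Agent.U642.WP.mono_balanced r
    (fun (e : {e : Fin r → Fin (E + 1) // Finset.univ.gcd (fun j => (e j : ℕ)) = 1})
      (j : Fin r) => (e.1 j : ℕ)) (by
      intro e e' h
      apply Subtype.ext
      funext j
      exact Fin.ext (congrFun h j)) (fun e => e.2)
  obtain ⟨κ, hκ, h⟩ := Pool.Agent.U642.QS.diag_main r m _
    (Pool.Agent.N542.PT.crit_balanced _ _ h2 h1) δ hδ hδ1
  obtain ⟨x₀, hx₀⟩ := eventually_atTop.mp h
  obtain ⟨p₀, hp₀⟩ := exists_nat_ge x₀
  refine ⟨κ, hκ, p₀, ?_⟩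
  intro p hp hpp g a M L hdeg hL hJ
  have : Fact p.Prime := ⟨hp⟩
  refine (hx₀ p (hp₀.trans (by exact_mod_cast hpp)) p rfl g a M L hdeg hL ?_).trans ?_
  · intro t ht
    have hJeq : univ.filter (fun j => 2 ≤ (Pool.Agent.U642.WP.comb g t j).natDegree) = J g t := by
      ext j
      unfold J Pool.Agent.U642.WP.comb
      simp only [mem_filter, mem_univ, true_and]
    have h3 := hJ t ht
    rw [← hJeq] at h3
    convert h3
  have hfin : (Sols E κ δ g a M L).Finite := by
    apply Set.Finite.subset (Fintype.piFinset fun j => Ioc (M j) (M j + L j)).finite_toSet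
    intro x hx
    rw [mem_coe, Fintype.mem_piFinset]
    intro j
    rw [mem_Ioc]
    exact hx.1 j
  rw [Nat.cast_le, ← Set.ncard_coe_finset]
  apply Set.ncard_le_ncard _ hfin
  intro x hx
  rw [mem_coe, mem_filter] at hx
  obtain ⟨h3, h4⟩ := hx
  unfold Pool.Agent.U642.QS.pts at h3
  rw [mem_filter, Fintype.mem_piFinset] at h3
  refine ⟨fun j => mem_Ioc.mp (h3.1 j), fun i => congrFun h3.2 i, ?_⟩
  intro e he hgcd n hn
  have h5 := h4 ⟨fun j => ⟨e j, Nat.lt_succ_of_le (he j)⟩, hgcd⟩ n
  simp only [map_prod, map_pow, MvPolynomial.eval_X] at h5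
  apply h5
  push_cast
  exact hn

end Pool.Agent.Results.MP_7ba156_nt.DiagonalSystemsModP
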