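import Pool.Agent.U642.QS.Recip

set_option autoImplicit false

/-!
# Record prime gaps and prescribed sums of reciprocals modulo primes

Let `f(x) = log x (log₂ x)² log₄ x / (log₃ x)²` be the order of the largest prime gaps that are
known to occur (starting files).  Let `p` be a large prime and let

  `∑_j (c_ij / x_j + d_ij x_j) = a_i`, `1 ≤ i ≤ m`,

be a system of `m` equations in `r` variables over the field with `p` elements; `d` and `a` are
arbitrary.  We look for integer solutions with `x_j` from given intervals `(M_j, M_j + L_j]`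
without multiples of `p`, `L_j ≥ p ^ δ`, such that all the `x_j`, and all the products
`x_1 ^ (e_1) ⋯ x_r ^ (e_r)` with coprime exponents `e_j ≤ E`, are in the middle of prime gaps of the
record size for the modulus `p`.  It is enough that for every nontrivial combination `t` of the
equations the set `J_t` of the variables with `∑_i t_i c_ij ≠ 0` satisfies

  `∏_{j ∈ J_t} L_j ≥ p ^ (|J_t| / 2 + m + δ)`;

the number of these solutions is at least `p ^ (-δ)` times the expected number `∏ L_j / p ^ m` of all
the solutions.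

For `m = 1`, `c_j = 1`, `d_j = 0`: every residue class modulo `p` is a sum of `r ≥ 3` reciprocals
`1 / x_1 + ⋯ + 1 / x_r` of integers from any intervals of length `p ^ (1 / 2 + (1 + δ) / r)` in
`(0, p)`, all of them and all these products in the middle of record prime gaps.  (The condition
says in particular that the reciprocals occur in every nontrivial combination of the equations.)

Method.  The solutions in residue classes to small moduli are counted by completing the
exponential sums in the variables of `J_t`; the complete sums are Kloosterman sums (Weil's bound,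
starting library).  The covering sieve for families of polynomials at well distributed families of
integer vectors (helper837, helper542; after helper256 and helper378) then gives the record gaps.
-/

namespace Pool.Agent.Results.MP_7ba156_nt.Reciprocals

open Finset Filter

/-- The record scale `f(x) = log x (log₂ x)² log₄ x / (log₃ x)²` (iterated natural logarithms). -/
noncomputable def f (x : ℝ) : ℝ :=
  Real.log x * (Real.log (Real.log x)) ^ 2 * Real.log (Real.log (Real.log (Real.log x))) /
    (Real.log (Real.log (Real.log x))) ^ 2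

/-- The integer solutions of `∑ j, (c i j / x j + d i j * x j) = a i` (in `ZMod p`, all `i`) in the
box `∏ (M j, M j + L j]` such that for all coprime exponents `e j ≤ E` all the integers at distance
at most `κ f(p)` from `∏ (x j) ^ (e j)` have a prime factor `l ≤ p ^ δ`. -/
def Sols {p m r : ℕ} (E : ℕ) (κ δ : ℝ) (c d : Fin m → Fin r → ZMod p) (a : Fin m → ZMod p)
    (M : Fin r → ℤ) (L : Fin r → ℕ) : Set (Fin r → ℤ) :=
  {x | (∀ j, M j < x j ∧ x j ≤ M j + L j) ∧
    (∀ i, ∑ j, (c i j * (x j : ZMod p)⁻¹ + d i j * (x j : ZMod p)) = a i) ∧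
    ∀ e : Fin r → ℕ, (∀ j, e j ≤ E) → Finset.univ.gcd e = 1 →
      ∀ n : ℤ, |(n : ℝ) - ∏ j, (x j : ℝ) ^ e j| ≤ κ * f p →
        ∃ l : ℕ, l.Prime ∧ (l : ℝ) ≤ (p : ℝ) ^ δ ∧ (l : ℤ) ∣ n}

open scoped Classical in
/-- **Integers in record prime gaps with prescribed sums of reciprocals modulo `p`.** -/
theorem result (r m E : ℕ) (δ : ℝ) (hδ : 0 < δ) (hδ1 : δ ≤ 1) :
    ∃ κ : ℝ, 0 < κ ∧ ∃ p₀ : ℕ, ∀ p : ℕ, p.Prime → p₀ ≤ p →
      ∀ (c d : Fin m → Fin r → ZMod p) (a : Fin m → ZMod p) (M : Fin r → ℤ) (L : Fin r → ℕ),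
      (∀ j, (p : ℝ) ^ δ ≤ L j ∧ ∀ x : ℤ, M j < x → x ≤ M j + L j → ¬ (p : ℤ) ∣ x) →
      (∀ t : Fin m → ZMod p, t ≠ 0 →
        (p : ℝ) ^ (((univ.filter (fun j => ∑ i, t i * c i j ≠ 0)).card : ℝ) / 2 + m + δ) ≤
          ∏ j ∈ univ.filter (fun j => ∑ i, t i * c i j ≠ 0), (L j : ℝ)) →
      (∏ j, (L j : ℝ)) / (p : ℝ) ^ ((m : ℝ) + δ) ≤ ((Sols E κ δ c d a M L).ncard : ℝ) := by
  obtain ⟨h1, h2⟩ := Pool.Agent.U642.WP.mono_balanced r
    (fun (e : {e : Fin r → Fin (E + 1) // Finset.univ.gcd (fun j => (e j : ℕ)) = 1})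
      (j : Fin r) => (e.1 j : ℕ)) (by
      intro e e' h
      apply Subtype.ext
      funext j
      exact Fin.ext (congrFun h j)) (fun e => e.2)
  obtain ⟨κ, hκ, h⟩ := Pool.Agent.U642.QS.rec_main r m _
    (Pool.Agent.N542.PT.crit_balanced _ _ h2 h1) δ hδ hδ1
  obtain ⟨x₀, hx₀⟩ := eventually_atTop.mp h
  obtain ⟨p₀, hp₀⟩ := exists_nat_ge x₀
  refine ⟨κ, hκ, p₀, ?_⟩
  intro p hp hpp c d a M L hL hJ
  have : Fact p.Prime := ⟨hp⟩
  have hp0 : 0 < p := hp.pos
  refine (hx₀ p (hp₀.trans (by exact_mod_cast hpp)) p rfl c d a M L (fun j => ⟨(hL j).1, ?_⟩)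
    hJ).trans ?_
  · -- an interval without multiples of `p` has length less than `p`
    by_contra hcon
    push Not at hcon
    have hcon' : p < L j := by exact_mod_cast hcon
    have hpz : (0 : ℤ) < p := by exact_mod_cast hp0
    have h3 := Int.emod_add_mul_ediv (M j) p
    have h4 := Int.emod_lt_of_pos (M j) hpz
    have h5 := Int.emod_nonneg (M j) hpz.ne'
    refine (hL j).2 (p * (M j / p + 1)) ?_ ?_ (dvd_mul_right _ _)
    · nlinarith
    · have h6 : (p : ℤ) < L j := by exact_mod_cast hcon'
      nlinarith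
  have hfin : (Sols E κ δ c d a M L).Finite := by
    apply Set.Finite.subset (Fintype.piFinset fun j => Ioc (M j) (M j + L j)).finite_toSet
    intro x hx
    rw [mem_coe, Fintype.mem_piFinset]
    intro j
    rw [mem_Ioc]
    exact hx.1 j
  rw [Nat.cast_le, ← Set.ncard_coe_finset]
  apply Set.ncard_le_ncard _ hfin
  intro x hx
  rw [mem_coe, mem_filter] at hx
  obtain ⟨h3, h4⟩ := hx
  unfold Pool.Agent.U642.QS.pts at h3
  rw [mem_filter, Fintype.mem_piFinset] at h3
  refine ⟨fun j => mem_Ioc.mp (h3.1 j), fun i => congrFun h3.2 i, ?_⟩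
  intro e he hgcd n hn
  have h5 := h4 ⟨fun j => ⟨e j, Nat.lt_succ_of_le (he j)⟩, hgcd⟩ n
  simp only [map_prod, map_pow, MvPolynomial.eval_X] at h5
  apply h5
  push_cast
  exact hn

end Pool.Agent.Results.MP_7ba156_nt.Reciprocals
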