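import Pool.Agent.U208.RG.Set

set_option autoImplicit false

/-! # Record prime gaps at residues of given order, in the intervals of Burgess

Write `f(x) = log x (log₂ x)² log₄ x / (log₃ x)²` for the record size of the gaps between primes. For every
`δ > 0`, every large prime `p` and every interval of length `L ≥ p ^ (1/4 + δ)`, `L ≤ p`, in arbitrary
position, many of the primitive roots modulo `p` of the interval are centres of record gaps: all the
integers at distance at most `κ f(p)` have a prime factor at most `p ^ δ`. The same holds for the residues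
of order `n` for every divisor `n ≥ p ^ (1 - η)` of `p - 1`, and for all sets of residues with a small
multiplicative Wiener norm.

Method: Burgess' bound for the character sums over progressions in short intervals (library `N647.BU`)
gives the equidistribution of the set in the residue classes of small moduli, and the covering sieve
(library `N647.FG`) gives the record gaps. -/

namespace Pool.Agent.Results.MP_7ba156_nt.ResiduesOfGivenOrder

open Finset Filter
open Pool.Agent.N647.FG (AP AP_one AP_card Far crit_count)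
open Pool.Agent.N647.BU (bur_AP SX units_AP phi_mul_card)
open Pool.Agent.W147.PS (ev_pow)
open Pool.Agent.U208.RG (set_count ofOrder ofOrder_card ofOrder_ne wiener_ofOrder)

/-- the record scale for gaps between primes -/
noncomputable def f (x : ℝ) : ℝ :=
  Real.log x * (Real.log (Real.log x)) ^ 2 * Real.log (Real.log (Real.log (Real.log x))) /
    (Real.log (Real.log (Real.log x))) ^ 2

/-- the multiplicative Wiener norm of a set `T` of residues modulo `p`: the sum over all the characters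
`χ` modulo `p` of `|∑ a ∈ T, χ(a)| / (p - 1)` -/
noncomputable def wiener {p : ℕ} [NeZero p] (T : Finset (ZMod p)) : ℝ :=
  ∑ χ : DirichletCharacter ℂ p, ‖∑ a ∈ T, χ a‖ / ((p : ℝ) - 1)

/-- every interval of length `L`, `p ^ (1/4 + δ) ≤ L ≤ p`, contains at least `|T| L / p ^ (1 + δ)` integers
`x` with residue in `T` such that every integer at distance at most `κ f(p)` of `x` has a prime factor
at most `p ^ δ` -/
def Rich (δ κ : ℝ) {p : ℕ} (T : Finset (ZMod p)) : Prop :=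
  ∀ (M : ℤ) (L : ℕ), (p : ℝ) ^ (1 / 4 + δ) ≤ L → L ≤ p →
    (T.card : ℝ) * L / (p : ℝ) ^ (1 + δ) ≤
      ({x : ℤ | M < x ∧ x ≤ M + L ∧ (x : ZMod p) ∈ T ∧
        ∀ m : ℤ, |(m : ℝ) - x| ≤ κ * f p →
          ∃ l : ℕ, l.Prime ∧ (l : ℝ) ≤ (p : ℝ) ^ δ ∧ (l : ℤ) ∣ m}.ncard : ℝ)

theorem main (δ : ℝ) (hδ : 0 < δ) : ∃ η : ℝ, 0 < η ∧ ∃ κ : ℝ, 0 < κ ∧ ∃ p₀ : ℕ,
    ∀ (p : ℕ) [Fact p.Prime], p₀ ≤ p → ∀ T : Finset (ZMod p), T.Nonempty → (∀ a ∈ T, a ≠ 0) →
      Pool.Agent.U208.RG.wiener T ≤ (p : ℝ) ^ η * (T.card / p) → Rich δ κ T := by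
  classical
  obtain ⟨δ', hδ', hbur⟩ := bur_AP δ hδ
  set δ₂ : ℝ := min (δ / 2) (min (δ' / 4) (1 / 10)) with hδ₂
  have hδ₂0 : 0 < δ₂ := lt_min (by positivity) (lt_min (by positivity) (by norm_num))
  have a1 : δ₂ ≤ δ / 2 := min_le_left _ _
  have a2 : δ₂ ≤ δ' / 4 := (min_le_right _ _).trans (min_le_left _ _)
  have a3 : δ₂ ≤ 1 / 10 := (min_le_right _ _).trans (min_le_right _ _)
  obtain ⟨κ, hκ, hcrit⟩ := crit_count 1 le_rfl δ₂ hδ₂0 (by linarith)
  refine ⟨δ' / 2, by positivity, κ, hκ, ?_⟩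
  set θ : ℝ := δ₂ / (4 * (1 : ℕ) + 2) with hθ
  have hθ0 : 0 < θ := by positivity
  have hθ1 : θ ≤ δ₂ / 6 := by
    rw [hθ]
    apply div_le_div_of_nonneg_left hδ₂0.le (by norm_num) (by push_cast; linarith)
  have tc : Tendsto (fun q : ℕ => (q : ℝ)) atTop atTop := tendsto_natCast_atTop_atTop
  have hev := (((hbur.and (tc.eventually hcrit)).and (tc.eventually
    (ev_pow (-(1 / 4)) (-δ₂) 24 (by linarith)))).and (tc.eventually
    (ev_pow (-(δ' / 2)) (-δ₂) 8 (by linarith)))).and (tc.eventually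
    (ev_pow δ₂ δ 2 (by linarith)))
  obtain ⟨p₀, hp₀⟩ := eventually_atTop.mp hev
  refine ⟨p₀, ?_⟩
  intro p _ hpp T hTne hT0 hW M L hL hLp
  have hp := (Fact.out : p.Prime)
  obtain ⟨⟨⟨⟨g1, g2⟩, g3⟩, g4⟩, g5⟩ := hp₀ p hpp
  have hp2 : (2 : ℝ) ≤ p := by exact_mod_cast hp.two_le
  have hp1 : (1 : ℝ) < p := by linarith
  have hp0 : (0 : ℝ) < p := by linarith
  have hmono : ∀ x y : ℝ, x ≤ y → (p : ℝ) ^ x ≤ (p : ℝ) ^ y := fun x y h =>
    Real.rpow_le_rpow_of_exponent_le hp1.le h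
  have hL0 : (0 : ℝ) < L := (Real.rpow_pos_of_pos hp0 _).trans_le hL
  have hTc : (0 : ℝ) < T.card := by exact_mod_cast hTne.card_pos
  set A : ℝ := T.card * L / ((p : ℝ) - 1) with hA
  have hpm : (0 : ℝ) < (p : ℝ) - 1 := by linarith
  have hA0 : 0 < A := by positivity
  have hAp : T.card * L / (p : ℝ) ≤ A := by
    rw [hA]
    apply div_le_div_of_nonneg_left (by positivity) hpm (by linarith)
  have hpδ₂ : 0 < (p : ℝ) ^ (-δ₂) := Real.rpow_pos_of_pos hp0 _
  have hsmall : (p : ℝ) ^ (-δ₂) ≤ 1 :=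
    Real.rpow_le_one_of_one_le_of_nonpos hp1.le (by linarith)
  -- the count in progressions
  have key : ∀ q : ℕ, 1 ≤ q → (q : ℝ) ≤ (p : ℝ) ^ θ → ∀ ρ : ℤ,
      |(((AP M L q ρ).filter (fun x : ℤ => (x : ZMod p) ∈ T)).card : ℝ) - A / q| ≤
        A * ((p : ℝ) ^ (-δ₂) / 4) := by
    intro q hq hqp ρ
    have hqR : (1 : ℝ) ≤ q := by exact_mod_cast hq
    have hq0 : (0 : ℝ) < q := by linarith
    have hqδ' : (q : ℝ) ≤ (p : ℝ) ^ δ' := hqp.trans (hmono _ _ (by linarith))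
    have h1 := set_count T hT0 (AP M L q ρ) ((p : ℝ) ^ (-δ') * L) (by positivity)
      (fun χ hχ => g1 χ hχ M L q hq hqδ' ρ hL)
    have h2 := units_AP (p := p) M L q hq hLp ρ
    set U : ℝ := (((AP M L q ρ).filter (fun x : ℤ => (x : ZMod p) ≠ 0)).card : ℝ) with hU
    have h3 : |T.card / ((p : ℝ) - 1) * U - A / q| ≤ A * ((p : ℝ) ^ (-δ₂) / 8) := by
      have e3 : T.card / ((p : ℝ) - 1) * U - A / q = T.card / ((p : ℝ) - 1) * (U - L / q) := by
        rw [hA]; field_simp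
      rw [e3, abs_mul, abs_of_pos (show (0 : ℝ) < T.card / ((p : ℝ) - 1) by positivity)]
      have h4 : (1 : ℝ) ≤ (p : ℝ) ^ (-(1 / 4 : ℝ)) * L := by
        calc (1 : ℝ) = (p : ℝ) ^ (-(1 / 4 : ℝ)) * (p : ℝ) ^ (1 / 4 : ℝ) := by
              rw [← Real.rpow_add hp0]; simp
          _ ≤ (p : ℝ) ^ (-(1 / 4 : ℝ)) * L := by
              apply mul_le_mul_of_nonneg_left _ (by positivity)
              exact (hmono _ _ (by linarith)).trans hL
      calc T.card / ((p : ℝ) - 1) * |U - L / q| ≤ T.card / ((p : ℝ) - 1) * 3 :=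
            mul_le_mul_of_nonneg_left h2 (by positivity)
        _ ≤ T.card / ((p : ℝ) - 1) * (3 * ((p : ℝ) ^ (-(1 / 4 : ℝ)) * L)) := by
            apply mul_le_mul_of_nonneg_left _ (by positivity)
            linarith
        _ = A * (24 * (p : ℝ) ^ (-(1 / 4 : ℝ)) / 8) := by rw [hA]; ring
        _ ≤ A * ((p : ℝ) ^ (-δ₂) / 8) := by gcongr
    have h4 : Pool.Agent.U208.RG.wiener T * ((p : ℝ) ^ (-δ') * L) ≤ A * ((p : ℝ) ^ (-δ₂) / 8) := by
      calc Pool.Agent.U208.RG.wiener T * ((p : ℝ) ^ (-δ') * L)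
          ≤ (p : ℝ) ^ (δ' / 2) * (T.card / p) * ((p : ℝ) ^ (-δ') * L) :=
            mul_le_mul_of_nonneg_right hW (by positivity)
        _ = (T.card * L / p) * (p : ℝ) ^ (-(δ' / 2)) := by
            have : (p : ℝ) ^ (-(δ' / 2)) = (p : ℝ) ^ (δ' / 2) * (p : ℝ) ^ (-δ') := by
              rw [← Real.rpow_add hp0]; congr 1; ring
            rw [this]; ring
        _ ≤ A * ((p : ℝ) ^ (-δ₂) / 8) := by
            apply mul_le_mul hAp _ (by positivity) hA0.le
            linarith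
    have h6 := abs_add_le ((((AP M L q ρ).filter (fun x : ℤ => (x : ZMod p) ∈ T)).card : ℝ) -
        T.card / ((p : ℝ) - 1) * U) (T.card / ((p : ℝ) - 1) * U - A / q)
    rw [sub_add_sub_cancel] at h6
    linarith
  -- the family
  set s : Finset ℤ := (Ioc M (M + L)).filter (fun x : ℤ => (x : ZMod p) ∈ T) with hs
  have k1 := key 1 le_rfl (by simpa using Real.one_le_rpow hp1.le hθ0.le) 0
  rw [AP_one, ← hs, Nat.cast_one, div_one] at k1
  have hscard : A / 2 ≤ (s.card : ℝ) := by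
    have h1 := (abs_le.mp k1).1
    have h2 : A * ((p : ℝ) ^ (-δ₂) / 4) ≤ A * (1 / 4) := by gcongr
    linarith
  have hmain := g2 ℤ s (fun x _ => x) (by
    intro q hq hqp ρ
    have hqR : (1 : ℝ) ≤ (q : ℝ) := by exact_mod_cast hq
    have k2 := key q hq hqp (ρ 0)
    have e1 : s.filter (fun i => ∀ j : Fin 1, (q : ℤ) ∣ i - ρ j) =
        (AP M L q (ρ 0)).filter (fun x : ℤ => (x : ZMod p) ∈ T) := by
      ext x
      unfold AP
      simp only [hs, mem_filter, Fin.forall_fin_one]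
      tauto
    rw [e1, pow_one]
    have k3 : |A / (q : ℝ) - s.card / (q : ℝ)| ≤ A * ((p : ℝ) ^ (-δ₂) / 4) := by
      rw [← sub_div, abs_div, abs_of_pos (show (0 : ℝ) < (q : ℝ) by linarith), abs_sub_comm]
      exact (div_le_self (abs_nonneg _) hqR).trans k1
    have k4 := abs_add_le ((((AP M L q (ρ 0)).filter (fun x : ℤ => (x : ZMod p) ∈ T)).card : ℝ) -
        A / (q : ℝ)) (A / (q : ℝ) - s.card / (q : ℝ))
    rw [sub_add_sub_cancel] at k4
    have k5 : A / 2 * (p : ℝ) ^ (-δ₂) ≤ s.card * (p : ℝ) ^ (-δ₂) :=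
      mul_le_mul_of_nonneg_right hscard hpδ₂.le
    linarith)
  set Y := {x : ℤ | M < x ∧ x ≤ M + L ∧ (x : ZMod p) ∈ T ∧
        ∀ m : ℤ, |(m : ℝ) - x| ≤ κ * f p →
          ∃ l : ℕ, l.Prime ∧ (l : ℝ) ≤ (p : ℝ) ^ δ ∧ (l : ℤ) ∣ m} with hY
  have hYfin : Y.Finite := by
    apply Set.Finite.subset (Ioc M (M + L)).finite_toSet
    intro x hx
    rw [mem_coe, mem_Ioc]
    exact ⟨hx.1, hx.2.1⟩
  have hle : (s.filter (fun x => ∀ _j : Fin 1, Far x (κ * Pool.Agent.W147.PS.ff p)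
      ((p : ℝ) ^ δ₂))).card ≤ Y.ncard := by
    rw [← Set.ncard_coe_finset]
    apply Set.ncard_le_ncard _ hYfin
    intro x hx
    rw [mem_coe, mem_filter, hs, mem_filter, mem_Ioc] at hx
    refine ⟨hx.1.1.1, hx.1.1.2, hx.1.2, ?_⟩
    intro m hm
    obtain ⟨l, hl, hl2, hl3⟩ := hx.2 0 m hm
    exact ⟨l, hl, hl2.trans (hmono _ _ (by linarith)), hl3⟩
  have hle' : ((s.filter (fun x => ∀ _j : Fin 1, Far x (κ * Pool.Agent.W147.PS.ff p)
      ((p : ℝ) ^ δ₂))).card : ℝ) ≤ (Y.ncard : ℝ) := by exact_mod_cast hle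
  refine le_trans ?_ (hmain.trans hle')
  have e3 : (p : ℝ) ^ δ₂ * (p : ℝ) ^ (-δ₂) = 1 := by
    rw [← Real.rpow_add hp0]; simp
  have h1 : (1 : ℝ) / (p : ℝ) ^ (1 + δ) ≤ (p : ℝ) ^ (-δ₂) * (1 / (2 * p)) := by
    have h2 : 2 * (p : ℝ) ^ δ₂ * p ≤ (p : ℝ) ^ (1 + δ) := by
      calc 2 * (p : ℝ) ^ δ₂ * p ≤ (p : ℝ) ^ δ * p := by gcongr
        _ = _ := by rw [Real.rpow_add hp0, Real.rpow_one, mul_comm]
    calc (1 : ℝ) / (p : ℝ) ^ (1 + δ) ≤ 1 / (2 * (p : ℝ) ^ δ₂ * p) := by gcongr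
      _ = _ := by
        rw [Real.rpow_neg hp0.le]
        field_simp
  calc (T.card : ℝ) * L / (p : ℝ) ^ (1 + δ) = T.card * L * (1 / (p : ℝ) ^ (1 + δ)) := by ring
    _ ≤ T.card * L * ((p : ℝ) ^ (-δ₂) * (1 / (2 * p))) := mul_le_mul_of_nonneg_left h1 (by positivity)
    _ = (p : ℝ) ^ (-δ₂) * ((T.card * L / p) / 2) := by field_simp
    _ ≤ (p : ℝ) ^ (-δ₂) * (A / 2) := by gcongr
    _ ≤ _ := mul_le_mul_of_nonneg_left hscard hpδ₂.le

/-- For every `δ > 0` there are `η, κ > 0` and `p₀` such that for every prime `p ≥ p₀`, with `Rich` as above: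

(1) every non-empty set `T` of residues prime to `p` with Wiener norm at most `p ^ η |T| / p` is `Rich`;

(2) for every divisor `n ≥ p ^ (1 - η)` of `p - 1` the set of the residues of order `n` modulo `p` (for
`n = p - 1`: the primitive roots) is `Rich`: every interval `(M, M + L]`, `p ^ (1/4 + δ) ≤ L ≤ p`, contains
at least `φ(n) L / p ^ (1 + δ)` integers `x` of order `n` modulo `p` such that every integer at distance at
most `κ f(p)` of `x` has a prime factor at most `p ^ δ`. -/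
theorem result (δ : ℝ) (hδ : 0 < δ) : ∃ η : ℝ, 0 < η ∧ ∃ κ : ℝ, 0 < κ ∧ ∃ p₀ : ℕ,
    ∀ (p : ℕ) [Fact p.Prime], p₀ ≤ p →
      (∀ T : Finset (ZMod p), T.Nonempty → (∀ a ∈ T, a ≠ 0) →
        wiener T ≤ (p : ℝ) ^ η * (T.card / p) → Rich δ κ T) ∧
      ∀ n : ℕ, n ∣ p - 1 → (p : ℝ) ^ (1 - η) ≤ n →
        (univ.filter (fun a : ZMod p => orderOf a = n)).card = n.totient ∧
        Rich δ κ (univ.filter (fun a : ZMod p => orderOf a = n)) := by
  obtain ⟨η₀, hη₀, κ, hκ, p₁, h⟩ := main δ hδ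
  set η : ℝ := min (η₀ / 2) (1 / 2) with hη
  have hη0 : 0 < η := lt_min (by positivity) (by norm_num)
  have b1 : η ≤ η₀ / 2 := min_le_left _ _
  have b2 : η ≤ 1 / 2 := min_le_right _ _
  obtain ⟨C, hC, hdiv⟩ := Pool.Agent.H510R2.divisor_bound (η₀ / 8) (by positivity)
  have tc : Tendsto (fun q : ℕ => (q : ℝ)) atTop atTop := tendsto_natCast_atTop_atTop
  have hev := tc.eventually (ev_pow (η₀ / 4) (η₀ / 2) (C ^ 2) (by linarith))
  obtain ⟨p₂, hp₂⟩ := eventually_atTop.mp hev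
  refine ⟨η, hη0, κ, hκ, max p₁ p₂, ?_⟩
  intro p _ hp'
  have hp := (Fact.out : p.Prime)
  have hp1 : (1 : ℝ) < p := by exact_mod_cast hp.one_lt
  have hp0 : (0 : ℝ) < p := by linarith
  have hmono : ∀ x y : ℝ, x ≤ y → (p : ℝ) ^ x ≤ (p : ℝ) ^ y := fun x y h =>
    Real.rpow_le_rpow_of_exponent_le hp1.le h
  have g := hp₂ p ((le_max_right _ _).trans hp')
  have hpa := h p ((le_max_left _ _).trans hp')
  constructor
  · intro T hT hT0 hW
    apply hpa T hT hT0
    refine hW.trans ?_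
    apply mul_le_mul_of_nonneg_right _ (by positivity)
    exact hmono _ _ (by linarith)
  · intro n hn hnp
    have hn0 : n ≠ 0 := by
      rintro rfl
      have := Nat.eq_zero_of_zero_dvd hn
      have := hp.two_le
      omega
    have hn1 : 1 ≤ n := Nat.one_le_iff_ne_zero.mpr hn0
    have hcard := ofOrder_card (p := p) hn
    have hnlt : n ≤ p := (Nat.le_of_dvd (by have := hp.two_le; omega) hn).trans (by omega)
    refine ⟨hcard, ?_⟩
    change Rich δ κ (ofOrder p n)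
    have htot : 0 < n.totient := Nat.totient_pos.mpr (by omega)
    apply hpa (ofOrder p n) (by rw [← card_pos, hcard]; exact htot) (ofOrder_ne hn0)
    refine (wiener_ofOrder hn0).trans ?_
    rw [hcard]
    have h1 := hdiv n hn1
    have h2 : (n.divisors.card : ℝ) ≤ C * (p : ℝ) ^ (η₀ / 8) := by
      refine h1.trans ?_
      apply mul_le_mul_of_nonneg_left _ hC.le
      apply Real.rpow_le_rpow (by positivity) (by exact_mod_cast hnlt) (by positivity)
    have hd0 : (0 : ℝ) < n.divisors.card := by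
      exact_mod_cast card_pos.mpr ⟨1, Nat.one_mem_divisors.mpr hn0⟩
    have h3 : (n : ℝ) ≤ n.totient * n.divisors.card := by exact_mod_cast phi_mul_card n hn1
    have h4 : (n.divisors.card : ℝ) ^ 2 ≤ (p : ℝ) ^ (η₀ / 2) := by
      calc (n.divisors.card : ℝ) ^ 2 ≤ (C * (p : ℝ) ^ (η₀ / 8)) ^ 2 := by gcongr
        _ = C ^ 2 * (p : ℝ) ^ (η₀ / 4) := by
            rw [mul_pow, ← Real.rpow_natCast ((p : ℝ) ^ (η₀ / 8)), ← Real.rpow_mul hp0.le]
            congr 2
            push_cast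
            ring
        _ ≤ _ := g
    have h5 : (p : ℝ) ^ (η₀ / 2) * p ≤ (p : ℝ) ^ η₀ * n := by
      calc (p : ℝ) ^ (η₀ / 2) * p ≤ (p : ℝ) ^ (η₀ - η) * p := by
            apply mul_le_mul_of_nonneg_right (hmono _ _ (by linarith)) hp0.le
        _ = (p : ℝ) ^ η₀ * (p : ℝ) ^ (1 - η) := by
            nth_rewrite 2 [← Real.rpow_one (p : ℝ)]
            rw [← Real.rpow_add hp0, ← Real.rpow_add hp0]
            congr 1
            ring
        _ ≤ _ := by gcongr
    rw [mul_div_assoc', le_div_iff₀ hp0]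
    have h6 : (n.divisors.card : ℝ) * ((n.divisors.card : ℝ) * p) ≤
        n.divisors.card * ((p : ℝ) ^ η₀ * n.totient) := by
      calc (n.divisors.card : ℝ) * ((n.divisors.card : ℝ) * p) = (n.divisors.card : ℝ) ^ 2 * p := by ring
        _ ≤ (p : ℝ) ^ (η₀ / 2) * p := by gcongr
        _ ≤ (p : ℝ) ^ η₀ * n := h5
        _ ≤ (p : ℝ) ^ η₀ * (n.totient * n.divisors.card) := by gcongr
        _ = _ := by ring
    exact le_of_mul_le_mul_left h6 hd0

end Pool.Agent.Results.MP_7ba156_nt.ResiduesOfGivenOrder
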