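import Pool.Agent.U602.MB.Fam

set_option autoImplicit false

/-! # Record prime gaps around smooth functions of numbers with given digits in several bases

Let `b_1, …, b_m ≥ 2` be pairwise coprime and let `S_i : ℕ → G_i` be strongly `b_i`-additive with
values in a finite abelian group: `S_i (b_i n + d) = S_i n + S_i d` for `d < b_i`. Suppose that for no
nontrivial character `χ` of `G_i` one has `χ(S_i 1) ^ (b_i - 1) = 1` and `χ(S_i d) = χ(S_i 1) ^ d` for all
`d < b_i` (example: the sums of the digits in the bases `b_i` modulo numbers `m_i` prime to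
`b_i - 1`). Let `f₁, …, f_r` be real functions, twice differentiable near infinity, with
`|f_j''(t)| = t ^ (c_j - 2 + o(1))` for distinct numbers `1 ≤ c_j < 2` and with `f_j(t) ≥ t ^ τ` for some
`τ > 0`; for instance `f_j(t) = α_j t ^ (c_j)` with `α_j > 0` and `1 < c_j < 2`, or `t log t`.

For every `ε > 0` there is `κ > 0` such that for all large `X` and all `g_i ∈ G_i` there are at least
`X ^ (1 - ε)` integers `n ≤ X` with `S_1(n) = g_1, …, S_m(n) = g_m` such that no prime lies within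
`κ log X (log₂ X)² log₄ X / (log₃ X)²` of any of the numbers `f₁(n), …, f_r(n)`.

Proof. The sums over short blocks of `∏ χ_i(S_i(n)) e(θ n)` save a power of the length, uniformly in
`θ`, if some `χ_i` is nontrivial (`U602/MB`: van der Corput's inequality; the correlations factor by
the Chinese remainder theorem). In a block of length `X ^ ε₁` the combinations `∑ h_j f_j(n) / q` are
linear up to a negative power of `X`, and the frequency `∑ h_j f_j'(N) / q` is close to an integer for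
few blocks only (mean value theorem). The joint covering criterion `crit_scaledJ` of the starting
library does the rest. -/

namespace Pool.Agent.Results.MP_7ba156_nt.SeveralBasesSmoothFunctions

open Filter Topology

theorem result (m : ℕ) (hm : 1 ≤ m) (b : Fin m → ℕ) (hb : ∀ i, 2 ≤ b i)
    (hcop : ∀ i j, i ≠ j → (b i).Coprime (b j))
    (G : Fin m → Type) [∀ i, AddCommGroup (G i)] [∀ i, Finite (G i)] (S : ∀ i, ℕ → G i)
    (hS : ∀ (i : Fin m) (n d : ℕ), d < b i → S i (b i * n + d) = S i n + S i d)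
    (hN : ∀ (i : Fin m) (χ : AddChar (G i) ℂ), χ (S i 1) ^ (b i - 1) = 1 →
      (∀ d < b i, χ (S i d) = χ (S i 1) ^ d) → ∀ g : G i, χ g = 1)
    (r : ℕ) (hr : 1 ≤ r) (c : Fin r → ℝ) (hc1 : ∀ j, 1 ≤ c j) (hc2 : ∀ j, c j < 2)
    (hc : Function.Injective c) (f : Fin r → ℝ → ℝ)
    (hf1 : ∀ j, ∀ᶠ t : ℝ in atTop, DifferentiableAt ℝ (f j) t ∧ DifferentiableAt ℝ (deriv (f j)) t)
    (hf2 : ∀ j, ∀ σ : ℝ, 0 < σ → ∀ᶠ t : ℝ in atTop,
      t ^ (c j - 2 - σ) ≤ |deriv (deriv (f j)) t| ∧ |deriv (deriv (f j)) t| ≤ t ^ (c j - 2 + σ))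
    (τ : ℝ) (hτ : 0 < τ) (hf3 : ∀ j, ∀ᶠ t : ℝ in atTop, t ^ τ ≤ f j t)
    (ε : ℝ) (hε : 0 < ε) :
    ∃ κ : ℝ, 0 < κ ∧ ∃ X₀ : ℝ, ∀ X : ℝ, X₀ ≤ X → ∀ g : ∀ i, G i,
      X ^ (1 - ε) ≤ ({n : ℕ | (∀ i, S i n = g i) ∧ (n : ℝ) ≤ X ∧ ∀ j, ∀ q : ℕ, q.Prime →
        κ * (Real.log X * (Real.log (Real.log X)) ^ 2 *
          Real.log (Real.log (Real.log (Real.log X))) / (Real.log (Real.log (Real.log X))) ^ 2) <
            |(q : ℝ) - f j n|}.ncard : ℝ) := by
  classical
  have : ∀ i, Fintype (G i) := fun i => Fintype.ofFinite (G i)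
  have : Nonempty (Fin m) := ⟨⟨0, hm⟩⟩
  obtain ⟨κ, hκ, h⟩ := Pool.Agent.U602.AB.family_smooth (fun n => (fun i => S i n : ∀ i, G i))
    (Pool.Agent.U602.MB.blocks_mb b hb hcop S hS (by
      rintro i χ hχ ⟨h1, h2⟩
      apply hχ
      ext g
      simpa using hN i χ h1 h2 g)) r hr c hc1 hc2 hc f (fun j => deriv (f j))
    (fun j => deriv (deriv (f j)))
    (fun j => (hf1 j).mono fun t ht => ht.1.hasDerivAt)
    (fun j => (hf1 j).mono fun t ht => ht.2.hasDerivAt) hf2 τ hτ hf3 ε hε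
  obtain ⟨X₀, hX₀⟩ := eventually_atTop.1 h
  refine ⟨κ, hκ, max X₀ 0, fun X hX g => ?_⟩
  have h1 := hX₀ X ((le_max_left _ _).trans hX) g
  have hX0 : 0 ≤ X := (le_max_right _ _).trans hX
  refine h1.trans (le_of_eq ?_)
  rw [← Set.ncard_coe_finset]
  congr 2
  ext n
  simp only [Finset.coe_filter, Finset.mem_range, Set.mem_ofPred_eq, Nat.lt_succ_iff,
    Nat.le_floor_iff hX0]
  constructor
  · rintro ⟨h2, h3, h4⟩
    exact ⟨fun i => congrFun h3 i, h2, h4⟩
  · rintro ⟨h2, h3, h4⟩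
    exact ⟨h3, funext h2, h4⟩

end Pool.Agent.Results.MP_7ba156_nt.SeveralBasesSmoothFunctions
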